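import Pool.Agent.Helper71_KF.Sqa
import Pool.Agent.Helper20_PP.Fun

/-!
# Squad KF, module SQB: the second main theorem
-/

open scoped BigOperators

set_option linter.unusedSectionVars false

noncomputable section

namespace Pool.Agent.PP.KF.H92

open Pool.Agent.Helper51_AWC Pool.Agent.Helper79_WRA Pool.Agent.PP
open Pool.Agent.PP.KF.H71

attribute [local instance] Ideal.Quotient.field

/-! ## 1. The group ring -/

section grp

variable {F : Type} [Field F] {G : Type} [Group G] [Fintype G] [DecidableEq G]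

theorem Km_mulVec (a b v : G → F) : (Km a b).mulVec v = mulF a (mulF v b) := by
  funext x
  rw [Matrix.mulVec, dotProduct]
  simp only [Km_apply, mulF, finsum_eq_sum_of_fintype, Finset.sum_mul, Finset.mul_sum]
  rw [Finset.sum_comm]
  refine Finset.sum_congr rfl fun g _ => Finset.sum_congr rfl fun y _ => ?_
  rw [← mul_assoc y⁻¹]
  ring

theorem dl_one_mulF (a : G → F) : mulF (dl F (1 : G)) a = a := by
  funext x
  rw [H75.mulF_dl_left]
  simp

theorem dl_cl : IsCl (dl F (1 : G)) := by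
  intro x y
  unfold dl
  by_cases h : x = 1
  · rw [if_pos h, if_pos (by rw [h]; group)]
  · rw [if_neg h, if_neg]
    intro h'
    apply h
    have : x = y⁻¹ * (y * x * y⁻¹) * y := by group
    rw [this, h']
    group

variable (u : G) (b : Cu u → F)

theorem e0_supp : ∀ g, g ∉ Cu u → PP.ext0 (Cu u) b g = 0 := by
  intro g hg
  rw [PP.ext0, dif_neg hg]

theorem e0_app (t : Cu u) : PP.ext0 (Cu u) b t = b t := by
  rw [PP.ext0, dif_pos t.2]

theorem e0_res : (fun t : Cu u => PP.ext0 (Cu u) b t) = b := funext (e0_app u b)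

theorem e0_idem (h : mulF b b = b) :
    mulF (PP.ext0 (Cu u) b) (PP.ext0 (Cu u) b) = PP.ext0 (Cu u) b := by
  have e1 := H75.mulF_res (Cu u) (PP.ext0 (Cu u) b) (e0_supp u b)
  rw [e0_res, h] at e1
  funext x
  by_cases hx : x ∈ Cu u
  · have := congrFun e1 ⟨x, hx⟩
    rw [e0_app u b ⟨x, hx⟩]
    exact this
  · rw [H75.mulF_supp (Cu u) (e0_supp u b) (e0_supp u b) x hx, e0_supp u b x hx]

theorem e0_conj (h : IsCl b) : ∀ c ∈ Cu u, ∀ x, PP.ext0 (Cu u) b (c * x * c⁻¹) =
    PP.ext0 (Cu u) b x := by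
  intro c hc x
  by_cases hx : x ∈ Cu u
  · have := h ⟨x, hx⟩ ⟨c, hc⟩
    rw [← e0_app u b, ← e0_app u b] at this
    exact this
  · rw [e0_supp u b x hx, e0_supp u b]
    intro h
    apply hx
    have := (Cu u).mul_mem ((Cu u).mul_mem ((Cu u).inv_mem hc) h) hc
    have e : c⁻¹ * (c * x * c⁻¹) * c = x := by group
    rwa [e] at this

theorem u_mem : u ∈ Cu u := by
  rw [Subgroup.mem_centralizer_iff]
  intro h hh
  rw [Set.mem_singleton_iff.1 hh]

theorem dl_comm_e0 (h : IsCl b) : mulF (PP.ext0 (Cu u) b) (dl F u) =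
    mulF (dl F u) (PP.ext0 (Cu u) b) := by
  funext g
  rw [H75.mulF_dl_left, H75.mulF_dl_right,
    ← e0_conj u b h u⁻¹ ((Cu u).inv_mem (u_mem u)) (g * u⁻¹)]
  congr 1
  group

/-- the element `(1 - e) b` vanishes on the centraliser -/
theorem al_zero (e : G → F) (he : IsCl e) (hb : IsCl b) (h : mulF (fun t : Cu u => e t) b = b) :
    ∀ x ∈ Cu u, mulF (dl F (1 : G) - e) (PP.ext0 (Cu u) b) x = 0 := by
  intro x hx
  have h1 : IsCl (dl F (1 : G) - e) := H20.isCl_sub dl_cl he
  rw [H20.mulF_comm_of_cl h1]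
  have e1 := congrFun (H75.mulF_res (Cu u) (dl F (1 : G) - e) (e0_supp u b)) ⟨x, hx⟩
  rw [e0_res] at e1
  have h2 : (fun t : Cu u => (dl F (1 : G) - e) t) =
      dl F (1 : Cu u) - (fun t : Cu u => e t) := by
    funext t
    simp only [Pi.sub_apply]
    congr 1
    unfold dl
    by_cases ht : t = 1
    · rw [if_pos ht, if_pos (by rw [ht]; rfl)]
    · rw [if_neg ht, if_neg]
      exact fun h' => ht (Subtype.ext h')
  rw [h2, H20.mulF_comm_of_cl hb, H20.sub_mulF] at e1
  have h3 : mulF (dl F (1 : Cu u)) b = b := by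
    funext t
    rw [H75.mulF_dl_left]
    simp
  rw [h3, h, sub_self] at e1
  exact e1

theorem cl_idem {f B : G → F} (hfc : IsCl f) (hff : mulF f f = f) (hBB : mulF B B = B) :
    mulF (mulF f B) (mulF f B) = mulF f B := by
  calc mulF (mulF f B) (mulF f B) = mulF f (mulF (mulF B f) B) := by
        rw [H20.mulF_assoc, ← H20.mulF_assoc B f B]
    _ = mulF (mulF f f) (mulF B B) := by
        rw [← H20.mulF_comm_of_cl hfc B, H20.mulF_assoc, H20.mulF_assoc]
    _ = mulF f B := by rw [hff, hBB]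

theorem chv_sub (a c χ : G → ℂ) : chv (a - c) χ = chv a χ - chv c χ := by
  simp only [chv, finsum_eq_sum_of_fintype, Pi.sub_apply, sub_mul, Finset.sum_sub_distrib]

end grp

/-! ## 2. Reduction -/

section red

variable {M : Ideal (integralClosure ℤ ℂ)} [hM : M.IsMaximal] {G : Type} [Group G] [Fintype G]

theorem mulF_RM {a c : G → ℂ} (ha : ∀ g, a g ∈ RM M) (hc : ∀ g, c g ∈ RM M) (x : G) :
    mulF a c x ∈ RM M ∧ rr M (mulF a c x) = mulF (fun g => rr M (a g)) (fun g => rr M (c g)) x := by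
  simp only [mulF, finsum_eq_sum_of_fintype]
  refine ⟨Subring.sum_mem _ fun g _ => (RM M).mul_mem (ha _) (hc _), ?_⟩
  rw [rr_sum _ _ fun g _ => (RM M).mul_mem (ha _) (hc _)]
  exact Finset.sum_congr rfl fun g _ => rr_mul (ha _) (hc _)

theorem Km_RM [DecidableEq G] {a c : G → ℂ} (ha : ∀ g, a g ∈ RM M) (hc : ∀ g, c g ∈ RM M)
    (x y : G) : Km a c x y ∈ RM M := by
  rw [Km_apply]
  exact Subring.sum_mem _ fun g _ => (RM M).mul_mem (ha _) (hc _)

theorem Km_map [DecidableEq G] {a c : G → ℂ} (ha : ∀ g, a g ∈ RM M) (hc : ∀ g, c g ∈ RM M) :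
    (Km a c).map (rr M) = Km (fun g => rr M (a g)) (fun g => rr M (c g)) := by
  ext x y
  rw [Matrix.map_apply, Km_apply, Km_apply, rr_sum _ _ fun g _ => (RM M).mul_mem (ha _) (hc _)]
  exact Finset.sum_congr rfl fun g _ => rr_mul (ha _) (hc _)

theorem dl_RM (z g : G) : dl ℂ z g ∈ RM M ∧ rr M (dl ℂ z g) = dl (FF M) z g := by
  unfold dl
  split_ifs
  · exact ⟨(RM M).one_mem, rr_one⟩
  · exact ⟨(RM M).zero_mem, rr_zero⟩

end red

/-! ## 3. The theorem -/

theorem sqb (trm : TrmStmt) (idm : IdmStmt) (trc : TrcStmt) : SqbStmt := by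
  intro M _ hM G _ _ u hu b hb e he heb
  classical
  have := Fintype.ofFinite G
  obtain ⟨h1, h2, -⟩ := idm M (Cu u) b hb
  obtain ⟨k1, k2, k3⟩ := idm M G e he
  generalize eh M b = bh at h1 h2 ⊢
  generalize eh M e = E at k1 k2 k3 ⊢
  have hui : u⁻¹ = u := inv_eq_of_mul_eq_one_left hu.sq
  have hone : ∀ {F : Type} [Field F] (a : G → F), mulF a (dl F (1 : G)) = a := by
    intro F _ a
    rw [← H20.mulF_comm_of_cl dl_cl, dl_one_mulF]
  have hduu : ∀ (F : Type) [Field F], mulF (dl F u) (dl F u) = dl F (1 : G) := by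
    intro F _
    funext g
    rw [H75.mulF_dl_left, hui]
    unfold dl
    by_cases h : g = 1
    · rw [if_pos h, if_pos (by rw [h, mul_one])]
    · rw [if_neg h, if_neg]
      intro h'
      exact h (mul_eq_left.1 h')
  -- over the complex numbers
  set B : G → ℂ := PP.ext0 (Cu u) bh with hB
  set f : G → ℂ := dl ℂ (1 : G) - E with hf
  have hfc : IsCl f := H20.isCl_sub dl_cl k2.1
  have hff : mulF f f = f := by
    rw [hf, H20.mulF_sub, hone, H20.sub_mulF, dl_one_mulF, k2.2, sub_self, sub_zero]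
  have hBB : mulF B B = B := e0_idem u bh h2.2
  have hBu : mulF B (dl ℂ u) = mulF (dl ℂ u) B := dl_comm_e0 u bh h2.1
  set w : G → ℂ := ub u bh with hw
  have hw1 : mulF (dl ℂ u) B = w := by
    funext g
    rw [H75.mulF_dl_left]
    rfl
  have hfB : mulF (mulF f B) (mulF f B) = mulF f B := cl_idem hfc hff hBB
  -- the sum is a trace
  have hL : ∑ᶠ χ ∈ {χ : G → ℂ | χ ∈ Irr G ∧ res M e χ ≠ 1}, chv w χ ^ 2 =
      ∑ x, Km (mulF f w) w x x := by
    have hfw : mulF f w = w - mulF E w := by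
      rw [hf, H20.sub_mulF, dl_one_mulF]
    have q1 : ∀ χ ∈ Irr G, res M e χ ≠ 1 → chv (mulF f w) χ = chv w χ := by
      intro χ hχ hr
      rw [hfw, chv_sub, (k3 χ hχ w).2 hr, sub_zero]
    have q2 : ∀ χ ∈ Irr G, res M e χ = 1 → chv (mulF f w) χ = 0 := by
      intro χ hχ hr
      rw [hfw, chv_sub, (k3 χ hχ w).1 hr, sub_self]
    calc ∑ᶠ χ ∈ {χ : G → ℂ | χ ∈ Irr G ∧ res M e χ ≠ 1}, chv w χ ^ 2
        = ∑ᶠ χ ∈ {χ : G → ℂ | χ ∈ Irr G ∧ res M e χ ≠ 1}, chv (mulF f w) χ * chv w χ := by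
          refine finsum_mem_congr rfl fun χ hχ => ?_
          rw [q1 χ hχ.1 hχ.2, pow_two]
      _ = ∑ᶠ χ ∈ Irr G, chv (mulF f w) χ * chv w χ := by
          apply finsum_mem_inter_support_eq
          ext χ
          constructor
          · rintro ⟨h3, h4⟩
            exact ⟨h3.1, h4⟩
          · rintro ⟨h3, h4⟩
            refine ⟨⟨h3, fun h5 => h4 ?_⟩, h4⟩
            change chv (mulF f w) χ * chv w χ = 0
            rw [q2 χ h3 h5, zero_mul]
      _ = ∑ x, Km (mulF f w) w x x := by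
          rw [trc G (mulF f w) w, finsum_eq_sum_of_fintype]
          refine Finset.sum_congr rfl fun x _ => ?_
          rw [finsum_eq_sum_of_fintype, Km_apply]
  rw [hL]
  -- the reductions
  set f' : G → FF M := dl (FF M) (1 : G) - e with hf'
  set B' : G → FF M := PP.ext0 (Cu u) b with hB'
  have hfr : ∀ g, f g ∈ RM M ∧ rr M (f g) = f' g := by
    intro g
    rw [hf, hf', Pi.sub_apply, Pi.sub_apply]
    refine ⟨(RM M).sub_mem (dl_RM _ _).1 (k1 g).1, ?_⟩
    rw [rr_sub (dl_RM _ _).1 (k1 g).1, (dl_RM _ _).2, (k1 g).2]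
  have hBr : ∀ g, B g ∈ RM M ∧ rr M (B g) = B' g := by
    intro g
    by_cases hg : g ∈ Cu u
    · rw [hB, hB', e0_app u bh ⟨g, hg⟩, e0_app u b ⟨g, hg⟩]
      exact h1 _
    · rw [hB, hB', e0_supp u bh g hg, e0_supp u b g hg]
      exact ⟨(RM M).zero_mem, rr_zero⟩
  have hff' : (fun g => rr M (f g)) = f' := funext fun g => (hfr g).2
  have hBB' : (fun g => rr M (B g)) = B' := funext fun g => (hBr g).2
  have hfBr : ∀ g, mulF f B g ∈ RM M := fun g =>
    (mulF_RM (fun g => (hfr g).1) (fun g => (hBr g).1) g).1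
  have hfBr' : (fun g => rr M (mulF f B g)) = mulF f' B' := by
    funext g
    rw [(mulF_RM (fun g => (hfr g).1) (fun g => (hBr g).1) g).2, hff', hBB']
  set P : Matrix G G ℂ := Km (mulF f B) B with hP
  set U : Matrix G G ℂ := Km (dl ℂ u) (dl ℂ u) with hU
  have hPR : ∀ i j, P i j ∈ RM M := fun i j => Km_RM hfBr (fun g => (hBr g).1) i j
  have hUR : ∀ i j, U i j ∈ RM M := fun i j =>
    Km_RM (fun g => (dl_RM u g).1) (fun g => (dl_RM u g).1) i j
  have hPm : P.map (rr M) = Km (mulF f' B') B' := by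
    rw [hP, Km_map hfBr (fun g => (hBr g).1), hfBr', hBB']
  have hUm : U.map (rr M) = Km (dl (FF M) u) (dl (FF M) u) := by
    rw [hU, Km_map (fun g => (dl_RM u g).1) (fun g => (dl_RM u g).1)]
    have : (fun g => rr M (dl ℂ u g)) = dl (FF M) u := funext fun g => (dl_RM u g).2
    rw [this]
  have hPP : P * P = P := by
    rw [hP, Km_mul, hfB, hBB]
  have hUU : U * U = 1 := by
    rw [hU, Km_mul, hduu, Km_one]
  have hUP : U * P = Km (mulF f w) w := by
    rw [hU, hP, Km_mul, hBu, hw1, ← H20.mulF_assoc, ← H20.mulF_comm_of_cl hfc, H20.mulF_assoc,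
      hw1]
  have hPU : P * U = Km (mulF f w) w := by
    rw [hU, hP, Km_mul, H20.mulF_assoc, hBu, hw1]
  have key := trm M hM G P U hPR hUR hPP hUU (hUP.trans hPU.symm) ?_
  · rw [hUP] at key
    exact key
  -- the reduction is free
  intro v hv hv'
  rw [hPm, Km_mulVec] at hv
  rw [hUm, Km_mulVec] at hv'
  set al : G → FF M := mulF f' B' with hal
  have hfc' : IsCl f' := H20.isCl_sub dl_cl he.1
  have hff2 : mulF f' f' = f' := by
    rw [hf', H20.mulF_sub, hone, H20.sub_mulF, dl_one_mulF, he.2, sub_self, sub_zero]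
  have hBB2 : mulF B' B' = B' := e0_idem u b hb.2
  have haa : mulF al al = al := cl_idem hfc' hff2 hBB2
  have hBu' : mulF B' (dl (FF M) u) = mulF (dl (FF M) u) B' := dl_comm_e0 u b hb.1
  have hav : mulF al v = v := by
    calc mulF al v = mulF al (mulF al (mulF v B')) := by rw [hv]
      _ = mulF al (mulF v B') := by rw [← H20.mulF_assoc, haa]
      _ = v := hv
  have hvu : mulF v (dl (FF M) u) = mulF (dl (FF M) u) v := by
    calc mulF v (dl (FF M) u) = mulF (dl (FF M) (1 : G)) (mulF v (dl (FF M) u)) := by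
          rw [dl_one_mulF]
      _ = mulF (dl (FF M) u) (mulF (dl (FF M) u) (mulF v (dl (FF M) u))) := by
          rw [← hduu, H20.mulF_assoc]
      _ = mulF (dl (FF M) u) v := by rw [hv']
  have hau : ∀ g, al (u⁻¹ * g * u⁻¹) = al g := by
    intro g
    have q : mulF (dl (FF M) u) (mulF al (dl (FF M) u)) = al := by
      rw [hal, H20.mulF_assoc, hBu', ← H20.mulF_assoc f', H20.mulF_comm_of_cl hfc',
        H20.mulF_assoc, ← H20.mulF_assoc (dl (FF M) u), hduu, dl_one_mulF,
        H20.mulF_comm_of_cl hfc']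
    have q1 := congrFun q g
    rw [H75.mulF_dl_left, H75.mulF_dl_right] at q1
    exact q1
  have haC : ∀ g ∈ Cu u, al g = 0 := al_zero u b e he.1 hb.1 heb
  let i := Fintype.equivFin G
  let c : G → FF M := fun g => if i g < i (u⁻¹ * g * u⁻¹) then al g else 0
  have hc : al = c + mulF (dl (FF M) u) (mulF c (dl (FF M) u)) := by
    funext g
    rw [Pi.add_apply, H75.mulF_dl_left, H75.mulF_dl_right]
    have e1 : u⁻¹ * (u⁻¹ * g * u⁻¹) * u⁻¹ = g := by
      have e2 : u⁻¹ * (u⁻¹ * g * u⁻¹) * u⁻¹ = (u * u)⁻¹ * g * (u * u)⁻¹ := by group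
      rw [e2, hu.sq]
      simp
    simp only [c]
    rw [e1, hau]
    rcases lt_trichotomy (i g) (i (u⁻¹ * g * u⁻¹)) with h | h | h
    · rw [if_pos h, if_neg (not_lt.2 h.le), add_zero]
    · rw [if_neg (lt_irrefl _ |> fun q => by rwa [← h]), if_neg (by rw [← h]; exact lt_irrefl _),
        add_zero]
      apply haC
      have e3 : g = u⁻¹ * g * u⁻¹ := i.injective h
      rw [Subgroup.mem_centralizer_iff]
      intro t ht
      rw [Set.mem_singleton_iff.1 ht]
      calc u * g = u * (u⁻¹ * g * u⁻¹) := by rw [← e3]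
        _ = g * u⁻¹ := by group
        _ = g * u := by rw [hui]
    · rw [if_neg (not_lt.2 h.le), if_pos h, zero_add]
  set w0 : G → FF M := mulF c v with hw0
  have hvw : v = w0 + (U.map (rr M)).mulVec w0 := by
    rw [hUm, Km_mulVec, hw0, H20.mulF_assoc, hvu, ← H20.mulF_assoc c, ← H20.mulF_assoc,
      ← H20.add_mulF, ← hc, hav]
  have hPPm : P.map (rr M) * P.map (rr M) = P.map (rr M) := by
    rw [← map_rr_mul hPR hPR, hPP]
  have hUPm : U.map (rr M) * P.map (rr M) = P.map (rr M) * U.map (rr M) := by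
    rw [← map_rr_mul hPR hUR, ← map_rr_mul hUR hPR, hUP, hPU]
  refine ⟨(P.map (rr M)).mulVec w0, ?_, ?_⟩
  · rw [Matrix.mulVec_mulVec, hPPm]
  · rw [Matrix.mulVec_mulVec, hUPm, ← Matrix.mulVec_mulVec, ← Matrix.mulVec_add, ← hvw, hPm,
      Km_mulVec, hv]

end Pool.Agent.PP.KF.H92
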