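import Pool.Agent.Helper66_KF.Stmts

/-!
# Squad KF: the main lemma (LK)
-/

open scoped BigOperators

noncomputable section

namespace Pool.Agent.PP.KF.H92

open Pool.Agent.Helper51_AWC Pool.Agent.Helper79_WRA Pool.Agent.PP Pool.Agent.PP.KF

attribute [local instance] Ideal.Quotient.field

/-- integers: a sum of squares equal to four -/
theorem four_squares {ι : Type*} [DecidableEq ι] (T : Finset ι) (d : ι → ℤ)
    (h4 : ∑ i ∈ T, d i ^ 2 = 4) (hne : ∀ i ∈ T, d i ≠ 0)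
    (h2 : ∀ i ∈ T, ¬ ((d i = 2 ∨ d i = -2) ∧ ∀ j ∈ T, j ≠ i → d j = 0)) :
    T.card = 4 ∧ ∀ i ∈ T, d i = 1 ∨ d i = -1 := by
  have hpos : ∀ i ∈ T, 1 ≤ d i ^ 2 := by
    intro i hi
    have := hne i hi
    have h : 0 < d i ^ 2 := by positivity
    omega
  have hone : ∀ i ∈ T, d i = 1 ∨ d i = -1 := by
    intro i hi
    have hle : d i ^ 2 ≤ 4 := by
      rw [← h4]
      exact Finset.single_le_sum (f := fun i => d i ^ 2) (fun j _ => sq_nonneg (d j)) hi
    have hb1 : d i ≤ 2 := by nlinarith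
    have hb2 : -2 ≤ d i := by nlinarith
    have h0 := hne i hi
    by_contra hcon
    have h22 : d i = 2 ∨ d i = -2 := by omega
    refine h2 i hi ⟨h22, ?_⟩
    intro j hj hji
    have hsum : d i ^ 2 + ∑ k ∈ T.erase i, d k ^ 2 = 4 := by
      rw [← h4]
      exact Finset.add_sum_erase T (fun k => d k ^ 2) hi
    have hi4 : d i ^ 2 = 4 := by rcases h22 with h | h <;> rw [h] <;> norm_num
    have hz : ∑ k ∈ T.erase i, d k ^ 2 = 0 := by omega
    have := (Finset.sum_eq_zero_iff_of_nonneg (fun k _ => sq_nonneg (d k))).1 hz j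
      (Finset.mem_erase.2 ⟨hji, hj⟩)
    exact pow_eq_zero_iff (two_ne_zero) |>.1 this
  refine ⟨?_, hone⟩
  have h5 : ∑ i ∈ T, d i ^ 2 = ∑ i ∈ T, (1 : ℤ) := by
    refine Finset.sum_congr rfl fun i hi => ?_
    rcases hone i hi with h | h <;> rw [h] <;> norm_num
  rw [h5, Finset.sum_const, nsmul_eq_mul, mul_one] at h4
  exact_mod_cast h4

/-- even integers: a sum of squares equal to four -/
theorem four_even {ι : Type*} [DecidableEq ι] (T : Finset ι) (d : ι → ℤ)
    (h4 : ∑ i ∈ T, d i ^ 2 = 4) (hev : ∀ i ∈ T, (2 : ℤ) ∣ d i) :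
    ∃ i ∈ T, (d i = 2 ∨ d i = -2) ∧ ∀ j ∈ T, j ≠ i → d j = 0 := by
  have : ∃ i ∈ T, d i ≠ 0 := by
    by_contra hcon
    push Not at hcon
    rw [Finset.sum_eq_zero (fun i hi => by rw [hcon i hi]; norm_num)] at h4
    norm_num at h4
  obtain ⟨i, hi, h0⟩ := this
  have hle : d i ^ 2 ≤ 4 := by
    rw [← h4]
    exact Finset.single_le_sum (f := fun i => d i ^ 2) (fun j _ => sq_nonneg (d j)) hi
  have hb1 : d i ≤ 2 := by nlinarith
  have hb2 : -2 ≤ d i := by nlinarith
  have hev' := hev i hi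
  have h22 : d i = 2 ∨ d i = -2 := by omega
  refine ⟨i, hi, h22, ?_⟩
  intro j hj hji
  have hsum : d i ^ 2 + ∑ k ∈ T.erase i, d k ^ 2 = 4 := by
    rw [← h4]
    exact Finset.add_sum_erase T (fun k => d k ^ 2) hi
  have hi4 : d i ^ 2 = 4 := by rcases h22 with h | h <;> rw [h] <;> norm_num
  have hz : ∑ k ∈ T.erase i, d k ^ 2 = 0 := by omega
  have := (Finset.sum_eq_zero_iff_of_nonneg (fun k _ => sq_nonneg (d k))).1 hz j
    (Finset.mem_erase.2 ⟨hji, hj⟩)
  exact pow_eq_zero_iff (two_ne_zero) |>.1 this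

theorem chv_single {G : Type} [Group G] (z : G) (χ : G → ℂ) :
    chv (fun g => open Classical in if g = z then (1 : ℂ) else 0) χ = χ z := by
  classical
  unfold chv
  rw [finsum_eq_single _ z]
  · simp
  · intro g hg
    simp [hg]

theorem lk (hmul : MulStmt) (hsqa : SqaStmt) (hsqb : SqbStmt) (hlin : LinStmt) (homc : OmcStmt)
    (hhgt : HgtStmt) (htrc : TrcStmt) : LkStmt := by
  classical
  intro M _ h2 G _ _ e he hbd u hu b hb heb a ha
  have hFG := Fintype.ofFinite G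
  have hFC := Fintype.ofFinite (Cu u)
  have hfG : (Irr G).Finite := irr_finite'
  have hfC : (Irr (Cu u)).Finite := irr_finite'
  have hfE : (IrrE M e).Finite := hfG.subset fun χ h => h.1
  have hfB : (IrrE M b).Finite := hfC.subset fun χ h => h.1
  set w := ub u (eh M b) with hw
  -- the integers d
  have hd : ∀ χ : G → ℂ, ∃ d : ℤ, χ ∈ Irr G → chv w χ = a * d := by
    intro χ
    by_cases h : χ ∈ Irr G
    · obtain ⟨d, hd⟩ := hmul M G u hu b hb.1 a ha.deg χ h
      exact ⟨d, fun _ => hd⟩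
    · exact ⟨0, fun h' => absurd h' h⟩
  choose d hd using hd
  have hane : (a : ℂ) ≠ 0 := by
    have hne : (IrrE M b).Nonempty := by
      rw [← Set.ncard_pos hfB, ha.card]
      norm_num
    obtain ⟨θ, hθ⟩ := hne
    rw [← ha.deg θ hθ]
    exact irr_one_ne hθ.1
  have hC0 : (Nat.card (Cu u) : ℂ) ≠ 0 := by
    exact_mod_cast Nat.card_pos.ne'
  have hG0 : (Nat.card G : ℂ) ≠ 0 := by
    exact_mod_cast Nat.card_pos.ne'
  -- outside the block
  have hout : ∀ χ ∈ Irr G, res M e χ ≠ 1 → d χ = 0 := by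
    intro χ hχ hr
    have h1 := hsqb M h2 G u hu b hb.1 e he.1 heb
    have hfin : {χ : G → ℂ | χ ∈ Irr G ∧ res M e χ ≠ 1}.Finite := hfG.subset fun χ h => h.1
    rw [finsum_mem_eq_finite_toFinset_sum _ hfin] at h1
    have h3 : ∑ χ ∈ hfin.toFinset, ((a : ℂ) ^ 2 * ((d χ ^ 2 : ℤ) : ℂ)) = 0 := by
      rw [← h1]
      refine Finset.sum_congr rfl fun ψ hψ => ?_
      have hψ' := (hfin.mem_toFinset.1 hψ).1
      rw [hd ψ hψ']
      push_cast
      ring
    rw [← Finset.mul_sum, mul_eq_zero] at h3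
    have h4 := h3.resolve_left (pow_ne_zero 2 hane)
    rw [← Int.cast_sum] at h4
    have h5 : ∑ χ ∈ hfin.toFinset, d χ ^ 2 = 0 := by exact_mod_cast h4
    have h6 := (Finset.sum_eq_zero_iff_of_nonneg (fun k _ => sq_nonneg (d k))).1 h5 χ
      (hfin.mem_toFinset.2 ⟨hχ, hr⟩)
    exact pow_eq_zero_iff (two_ne_zero) |>.1 h6
  -- sums over all characters reduce to the block
  have hred : ∀ f : (G → ℂ) → ℂ, ∑ χ ∈ hfG.toFinset, f χ * (d χ : ℂ) =
      ∑ χ ∈ hfE.toFinset, f χ * (d χ : ℂ) := by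
    intro f
    symm
    refine Finset.sum_subset ?_ ?_
    · intro χ hχ
      exact hfG.mem_toFinset.2 (hfE.mem_toFinset.1 hχ).1
    · intro χ hχ hn
      have h1 := hfG.mem_toFinset.1 hχ
      have h3 : res M e χ ≠ 1 := fun h => hn (hfE.mem_toFinset.2 ⟨h1, h⟩)
      rw [hout χ h1 h3]
      simp
  have hsq : ∑ χ ∈ hfE.toFinset, d χ ^ 2 = 4 := by
    have h1 := hsqa M h2 G u hu b hb.1
    rw [finsum_mem_eq_finite_toFinset_sum _ hfG, finsum_mem_eq_finite_toFinset_sum _ hfB] at h1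
    have h3 : ∑ θ ∈ hfB.toFinset, θ 1 ^ 2 = 4 * (a : ℂ) ^ 2 := by
      rw [Finset.sum_congr rfl (g := fun _ => (a : ℂ) ^ 2) (fun θ hθ => by
        rw [ha.deg θ (hfB.mem_toFinset.1 hθ)]), Finset.sum_const, nsmul_eq_mul]
      congr 1
      have := ha.card
      rw [Set.ncard_eq_toFinset_card _ hfB] at this
      rw [this]
      norm_num
    have h4 : ∑ χ ∈ hfG.toFinset, chv w χ ^ 2 =
        (a : ℂ) ^ 2 * ∑ χ ∈ hfG.toFinset, (d χ : ℂ) * (d χ : ℂ) := by
      rw [Finset.mul_sum]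
      refine Finset.sum_congr rfl fun ψ hψ => ?_
      rw [hd ψ (hfG.mem_toFinset.1 hψ)]
      ring
    rw [h4, h3, hred] at h1
    have h5 : ∑ χ ∈ hfE.toFinset, (d χ : ℂ) * (d χ : ℂ) = 4 := by
      have h6 : (a : ℂ) ^ 2 ≠ 0 := pow_ne_zero 2 hane
      apply mul_left_cancel₀ h6
      rw [h1]
      ring
    have h7 : ((∑ χ ∈ hfE.toFinset, d χ ^ 2 : ℤ) : ℂ) = ((4 : ℤ) : ℂ) := by
      push_cast
      rw [← h5]
      exact Finset.sum_congr rfl fun χ _ => by ring
    exact_mod_cast h7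
  -- central elements
  have hcen : ∀ z ∈ Subgroup.center G, z * z = 1 → z ≠ u →
      ∑ χ ∈ hfE.toFinset, (d χ : ℂ) * χ z = 0 := by
    intro z hz hzz hzu
    have h1 := htrc G w (fun g => if g = z then (1 : ℂ) else 0)
    rw [finsum_mem_eq_finite_toFinset_sum _ hfG] at h1
    have hzc : ∀ x, x * z = z * x := Subgroup.mem_center_iff.1 hz
    have hzinv : z⁻¹ = z := inv_eq_of_mul_eq_one_left hzz
    have huinv : u⁻¹ = u := inv_eq_of_mul_eq_one_left hu.sq
    have hR : (∑ᶠ (x : G) (g : G), w g * (if x⁻¹ * g⁻¹ * x = z then (1 : ℂ) else 0)) = 0 := by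
      have hwz : w z = 0 := by
        rw [hw]
        unfold ub PP.ext0
        have hmem : u⁻¹ * z ∈ Cu u := by
          rw [Subgroup.mem_centralizer_singleton_iff]
          rw [mul_assoc, ← hzc u, ← mul_assoc, ← mul_assoc, inv_mul_cancel, mul_inv_cancel]
        rw [dif_pos hmem]
        refine hlin M h2 (Cu u) b hb.1 ⟨u⁻¹ * z, hmem⟩ ⟨?_, ?_⟩
        · apply Subtype.ext
          show u⁻¹ * z * (u⁻¹ * z) = 1
          rw [huinv, mul_assoc, ← mul_assoc z u z, ← hzc u, mul_assoc u z z, hzz, mul_one, hu.sq]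
        · intro h
          have h' : u⁻¹ * z = 1 := congrArg Subtype.val h
          exact hzu (inv_mul_eq_one.1 h').symm
      apply finsum_eq_zero_of_forall_eq_zero
      intro x
      apply finsum_eq_zero_of_forall_eq_zero
      intro g
      split_ifs with h
      · have hg : g = z := by
          have h3 : g⁻¹ = x * z * x⁻¹ := by rw [← h]; group
          rw [hzc x, mul_inv_cancel_right] at h3
          rw [← inv_inv g, h3, hzinv]
        rw [hg, hwz, zero_mul]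
      · rw [mul_zero]
    rw [hR] at h1
    have h3 : ∑ χ ∈ hfG.toFinset, chv w χ * chv (fun g => if g = z then (1 : ℂ) else 0) χ =
        (a : ℂ) * ∑ χ ∈ hfG.toFinset, χ z * (d χ : ℂ) := by
      rw [Finset.mul_sum]
      refine Finset.sum_congr rfl fun ψ hψ => ?_
      rw [hd ψ (hfG.mem_toFinset.1 hψ)]
      have := chv_single z ψ
      rw [show chv (fun g => if g = z then (1 : ℂ) else 0) ψ = ψ z from by
        convert this]
      ring
    rw [h3, hred] at h1
    have h4 := (mul_eq_zero.1 h1).resolve_left hane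
    rw [← h4]
    exact Finset.sum_congr rfl fun χ _ => mul_comm _ _
  -- a single character is impossible
  have hsingle : ∀ i ∈ hfE.toFinset,
      ¬ ((d i = 2 ∨ d i = -2) ∧ ∀ j ∈ hfE.toFinset, j ≠ i → d j = 0) := by
    rintro i hi ⟨h22, hj⟩
    have h1 := hcen 1 (Subgroup.one_mem _) (mul_one 1) (Ne.symm hu.ne)
    rw [Finset.sum_eq_single_of_mem i hi (fun j hj' hji => by rw [hj j hj' hji]; simp)] at h1
    have h3 := irr_one_ne (hfE.mem_toFinset.1 hi).1
    rcases mul_eq_zero.1 h1 with h | h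
    · have : d i = 0 := by exact_mod_cast h
      omega
    · exact h3 h
  -- central characters
  have hkap : rr M (4 * a / Nat.card (Cu u) : ℂ) ≠ 0 := by
    intro h
    have h1 := rr_mul ha.unit ha.unit'
    rw [h, zero_mul] at h1
    have h3 : (4 * a / Nat.card (Cu u) : ℂ) * (Nat.card (Cu u) / (4 * a) : ℂ) = 1 := by
      field_simp
    rw [h3, rr_one] at h1
    exact one_ne_zero h1
  have hstar : ∀ χ ∈ IrrE M e,
      (Nat.card G * chv w χ / (Nat.card (Cu u) * χ 1)) * (4 * χ 1 / Nat.card G) =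
        (4 * a / Nat.card (Cu u) : ℂ) * ((d χ : ℤ) : ℂ) := by
    intro χ hχ
    have h1 := irr_one_ne hχ.1
    rw [hd χ hχ.1]
    field_simp
  have hne : ∀ χ ∈ IrrE M e, rr M (Nat.card G * chv w χ / (Nat.card (Cu u) * χ 1)) ≠ 0 := by
    intro χ hχ h0
    have hall : ∀ ψ ∈ hfE.toFinset, (2 : ℤ) ∣ d ψ := by
      intro ψ hψ
      have hψ' := hfE.mem_toFinset.1 hψ
      obtain ⟨h1, h3⟩ := homc M G u b hb.1 e he ψ hψ' χ hχ
      have h4 := rr_mul h1 (hhgt M h2 G e he.1 hbd ψ hψ')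
      rw [← hw] at h4 h3
      rw [hstar ψ hψ', h3, h0, zero_mul, rr_mul ha.unit (rr_int (d ψ)).1] at h4
      have h5 := (mul_eq_zero.1 h4).resolve_left hkap
      exact (dvd_of_rr (M := M) Nat.prime_two (by exact_mod_cast h2)).1 h5
    obtain ⟨i, hi, h22⟩ := four_even _ d hsq hall
    exact hsingle i hi h22
  have hdne : ∀ i ∈ hfE.toFinset, d i ≠ 0 := by
    intro χ hχ h0
    have hχ' := hfE.mem_toFinset.1 hχ
    apply hne χ hχ'
    rw [hd χ hχ'.1, h0]
    simp [rr_zero]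
  obtain ⟨hc4, hpm⟩ := four_squares _ d hsq hdne hsingle
  refine ⟨?_, d, ?_, ?_⟩
  · rw [Set.ncard_eq_toFinset_card _ hfE]
    exact hc4
  · intro χ hχ
    have hχ' := hfE.mem_toFinset.2 hχ
    refine ⟨hpm χ hχ', hhgt M h2 G e he.1 hbd χ hχ, ?_⟩
    have h1 := irr_one_ne hχ.1
    have h3 : (Nat.card G / (4 * χ 1) : ℂ) =
        (Nat.card G * chv w χ / (Nat.card (Cu u) * χ 1)) * (Nat.card (Cu u) / (4 * a) : ℂ) *
          ((d χ : ℤ) : ℂ) := by
      have h4 : ((d χ : ℤ) : ℂ) * ((d χ : ℤ) : ℂ) = 1 := by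
        rcases hpm χ hχ' with h | h <;> rw [h] <;> norm_num
      rw [hd χ hχ.1]
      have h5 : (Nat.card G * (a * (d χ : ℂ)) / (Nat.card (Cu u) * χ 1)) *
          (Nat.card (Cu u) / (4 * a) : ℂ) * (d χ : ℂ) =
          Nat.card G / (4 * χ 1) * ((d χ : ℂ) * (d χ : ℂ)) := by
        field_simp
      rw [h5, h4, mul_one]
    rw [h3]
    exact Subring.mul_mem _ (Subring.mul_mem _ (homc M G u b hb.1 e he χ hχ χ hχ).1 ha.unit')
      (rr_int (d χ)).1
  · intro z hz hzz hzu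
    rw [finsum_mem_eq_finite_toFinset_sum _ hfE]
    exact hcen z hz hzz hzu

end Pool.Agent.PP.KF.H92
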